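import Pool.Agent.H25.DP.Targets3

/-!
# DN0: a lower bound of Mertens type in logarithmic windows
-/

set_option autoImplicit false

open Filter Topology Finset

namespace Pool.Agent.H80.DP

open Pool.Agent.H25.DP

/-- summatory function -/
noncomputable def AS (a : ℕ → ℝ) (x : ℝ) : ℝ := ∑ n ∈ Finset.Icc 1 ⌊x⌋₊, a n

theorem AS_nonneg {a : ℕ → ℝ} (ha : ∀ n, 0 ≤ a n) (x : ℝ) : 0 ≤ AS a x :=
  Finset.sum_nonneg fun n _ => ha n

theorem AS_mono {a : ℕ → ℝ} (ha : ∀ n, 0 ≤ a n) {x y : ℝ} (h : x ≤ y) : AS a x ≤ AS a y := by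
  apply Finset.sum_le_sum_of_subset_of_nonneg
  · exact Finset.Icc_subset_Icc_right (Nat.floor_le_floor h)
  · intro n _ _
    exact ha n

theorem hyper (a L : ℕ → ℝ)
    (h : ∀ n : ℕ, 1 ≤ n → a n * Real.log n = ∑ q ∈ n.divisorsAntidiagonal, L q.1 * a q.2)
    (x : ℝ) :
    ∑ n ∈ Finset.Icc 1 ⌊x⌋₊, a n * Real.log n = ∑ m ∈ Finset.Icc 1 ⌊x⌋₊, L m * AS a (x / m) := by
  classical
  let f : ArithmeticFunction ℝ := ⟨fun n => if n = 0 then 0 else L n, by simp⟩
  let g : ArithmeticFunction ℝ := ⟨fun n => if n = 0 then 0 else a n, by simp⟩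
  have hIoc : ∀ N : ℕ, Finset.Icc 1 N = Finset.Ioc 0 N := by
    intro N
    ext n
    simp only [Finset.mem_Icc, Finset.mem_Ioc]
    omega
  have key := ArithmeticFunction.sum_Ioc_mul_eq_sum_sum f g ⌊x⌋₊
  rw [hIoc]
  calc ∑ n ∈ Finset.Ioc 0 ⌊x⌋₊, a n * Real.log n
      = ∑ n ∈ Finset.Ioc 0 ⌊x⌋₊, (f * g) n := by
        apply Finset.sum_congr rfl
        intro n hn
        have hn1 : 1 ≤ n := by
          have := (Finset.mem_Ioc.mp hn).1
          omega
        rw [h n hn1, ArithmeticFunction.mul_apply]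
        apply Finset.sum_congr rfl
        intro q hq
        have hq' := Nat.mem_divisorsAntidiagonal.mp hq
        have h1 : q.1 ≠ 0 := by
          rintro h0
          rw [h0, zero_mul] at hq'
          omega
        have h2 : q.2 ≠ 0 := by
          rintro h0
          rw [h0, mul_zero] at hq'
          omega
        change L q.1 * a q.2 = (if q.1 = 0 then 0 else L q.1) * (if q.2 = 0 then 0 else a q.2)
        rw [if_neg h1, if_neg h2]
    _ = ∑ n ∈ Finset.Ioc 0 ⌊x⌋₊, f n * ∑ m ∈ Finset.Ioc 0 (⌊x⌋₊ / n), g m := key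
    _ = _ := by
        apply Finset.sum_congr rfl
        intro n hn
        have hn1 : n ≠ 0 := by
          have := (Finset.mem_Ioc.mp hn).1
          omega
        change (if n = 0 then 0 else L n) * _ = _
        rw [if_neg hn1]
        congr 1
        unfold AS
        rw [Nat.floor_div_natCast, hIoc]
        apply Finset.sum_congr rfl
        intro m hm
        have hm1 : m ≠ 0 := by
          have := (Finset.mem_Ioc.mp hm).1
          omega
        change (if m = 0 then 0 else a m) = _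
        rw [if_neg hm1]

theorem dn0 : T_DN0 := by
  intro a L κ hκ ha hL hrel hlim x₁ x₂ hx₁ hx₁₂
  have hx₂ : 0 < x₂ := lt_trans hx₁ hx₁₂
  set θ : ℝ := x₁ / x₂ with hθ
  have hθ0 : 0 < θ := div_pos hx₁ hx₂
  have hθ1 : θ < 1 := (div_lt_one hx₂).mpr hx₁₂
  have hx₁θ : x₁ = θ * x₂ := by rw [hθ]; field_simp
  set e : ℝ := (1 - θ) / 22 with he
  have he0 : 0 < e := by rw [he]; linarith
  have he1 : e ≤ 1 / 22 := by rw [he]; linarith
  have heθ : 22 * e = 1 - θ := by rw [he]; ring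
  -- the asymptotic bounds
  have hlim' : Tendsto (fun x : ℝ => AS a x / x) atTop (𝓝 κ) := hlim
  have hev1 : ∀ᶠ x : ℝ in atTop, κ * (1 - e) < AS a x / x :=
    hlim'.eventually (lt_mem_nhds (by nlinarith))
  have hev2 : ∀ᶠ x : ℝ in atTop, AS a x / x < κ * (1 + e) :=
    hlim'.eventually (gt_mem_nhds (by nlinarith))
  obtain ⟨y₀, hy₀⟩ := eventually_atTop.mp (hev1.and hev2)
  set y₁ : ℝ := max y₀ 1 with hy₁
  have hy₁1 : 1 ≤ y₁ := le_max_right _ _
  have hlow : ∀ y, y₁ ≤ y → κ * (1 - e) * y ≤ AS a y := by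
    intro y hy
    have h1 := (hy₀ y (le_trans (le_max_left _ _) hy)).1
    have hyp : 0 < y := by linarith
    rw [lt_div_iff₀ hyp] at h1
    exact h1.le
  have hupp : ∀ y, y₁ ≤ y → AS a y ≤ κ * (1 + e) * y := by
    intro y hy
    have h1 := (hy₀ y (le_trans (le_max_left _ _) hy)).2
    have hyp : 0 < y := by linarith
    rw [div_lt_iff₀ hyp] at h1
    exact h1.le
  set C : ℝ := κ * (1 + e) + AS a y₁ with hC
  have hCpos : 0 < C := by
    have := AS_nonneg ha y₁
    have : 0 < κ * (1 + e) := by positivity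
    linarith
  have hAC : ∀ y, 1 ≤ y → AS a y ≤ C * y := by
    intro y hy
    rcases le_total y₁ y with h | h
    · have h1 := hupp y h
      have h2 := AS_nonneg ha y₁
      nlinarith
    · have h1 := AS_mono ha h
      have h2 : 0 < κ * (1 + e) := by positivity
      have h3 := AS_nonneg ha y₁
      nlinarith
  -- S
  have hS : ∀ x : ℝ, ∑ n ∈ Finset.Icc 1 ⌊x⌋₊, a n * Real.log n =
      ∑ m ∈ Finset.Icc 1 ⌊x⌋₊, L m * AS a (x / m) := hyper a L hrel
  have hSup : ∀ x : ℝ, 1 ≤ x → ∑ n ∈ Finset.Icc 1 ⌊x⌋₊, a n * Real.log n ≤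
      AS a x * Real.log x := by
    intro x hx
    unfold AS
    rw [Finset.sum_mul]
    apply Finset.sum_le_sum
    intro n hn
    obtain ⟨hn1, hn2⟩ := Finset.mem_Icc.mp hn
    apply mul_le_mul_of_nonneg_left _ (ha n)
    apply Real.log_le_log
    · exact_mod_cast hn1
    · exact (Nat.le_floor_iff (by linarith)).mp hn2
  -- upper bound for M
  have hM : ∀ y : ℝ, 1 ≤ y → (∑ m ∈ Finset.Icc 1 ⌊y⌋₊, L m / m) * (1 - e) ≤
      (1 + e) * (Real.log y + Real.log y₁) := by
    intro y hy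
    have hyy : y₁ ≤ y * y₁ := by nlinarith
    have hyyp : 0 < y * y₁ := by nlinarith
    have hyy1 : 1 ≤ y * y₁ := le_trans hy₁1 hyy
    have hle : y ≤ y * y₁ := by nlinarith
    have h1 : (∑ m ∈ Finset.Icc 1 ⌊y⌋₊, L m / m) * (κ * (1 - e) * (y * y₁)) ≤
        ∑ m ∈ Finset.Icc 1 ⌊y * y₁⌋₊, L m * AS a (y * y₁ / m) := by
      calc (∑ m ∈ Finset.Icc 1 ⌊y⌋₊, L m / m) * (κ * (1 - e) * (y * y₁))
          = ∑ m ∈ Finset.Icc 1 ⌊y⌋₊, L m * (κ * (1 - e) * (y * y₁ / m)) := by
            rw [Finset.sum_mul]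
            apply Finset.sum_congr rfl
            intro m _
            ring
        _ ≤ ∑ m ∈ Finset.Icc 1 ⌊y⌋₊, L m * AS a (y * y₁ / m) := by
            apply Finset.sum_le_sum
            intro m hm
            obtain ⟨hm1, hm2⟩ := Finset.mem_Icc.mp hm
            have hm2' : (m : ℝ) ≤ y := (Nat.le_floor_iff (by linarith)).mp hm2
            have hmp : (0 : ℝ) < m := by exact_mod_cast hm1
            apply mul_le_mul_of_nonneg_left _ (hL m)
            apply hlow
            rw [le_div_iff₀ hmp]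
            nlinarith
        _ ≤ _ := by
            apply Finset.sum_le_sum_of_subset_of_nonneg
            · exact Finset.Icc_subset_Icc_right (Nat.floor_le_floor hle)
            · intro m _ _
              exact mul_nonneg (hL m) (AS_nonneg ha _)
    have h2 : ∑ m ∈ Finset.Icc 1 ⌊y * y₁⌋₊, L m * AS a (y * y₁ / m) ≤
        κ * (1 + e) * (y * y₁) * (Real.log y + Real.log y₁) := by
      rw [← hS]
      refine le_trans (hSup _ hyy1) ?_
      rw [← Real.log_mul (by linarith) (by linarith)]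
      exact mul_le_mul_of_nonneg_right (hupp _ hyy) (Real.log_nonneg hyy1)
    have h3 := le_trans h1 h2
    have hk : 0 < κ * (y * y₁) := mul_pos hκ hyyp
    have h4 : κ * (y * y₁) * ((∑ m ∈ Finset.Icc 1 ⌊y⌋₊, L m / m) * (1 - e)) ≤
        κ * (y * y₁) * ((1 + e) * (Real.log y + Real.log y₁)) := by
      calc κ * (y * y₁) * ((∑ m ∈ Finset.Icc 1 ⌊y⌋₊, L m / m) * (1 - e))
          = (∑ m ∈ Finset.Icc 1 ⌊y⌋₊, L m / m) * (κ * (1 - e) * (y * y₁)) := by ring
        _ ≤ κ * (1 + e) * (y * y₁) * (Real.log y + Real.log y₁) := h3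
        _ = _ := by ring
    exact le_of_mul_le_mul_left h4 hk
  -- constants
  have hlogT : Tendsto (fun T : ℝ => x₂ * Real.log T) atTop atTop :=
    Real.tendsto_log_atTop.const_mul_atTop hx₂
  have hev3 : ∀ᶠ T : ℝ in atTop, (4 * (1 + 8 * e) * Real.log y₁) / (1 - θ) ≤ x₂ * Real.log T :=
    hlogT.eventually_ge_atTop _
  have hev4 : ∀ᶠ T : ℝ in atTop, y₁ ≤ T ^ (x₂ - x₁) :=
    (tendsto_rpow_atTop (by linarith)).eventually_ge_atTop _
  have hev5 : ∀ᶠ T : ℝ in atTop, y₁ ≤ T ^ x₂ :=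
    (tendsto_rpow_atTop hx₂).eventually_ge_atTop _
  have hev6 : ∀ᶠ T : ℝ in atTop, C / (κ * e) ≤ T ^ (x₂ * e) :=
    (tendsto_rpow_atTop (by positivity)).eventually_ge_atTop _
  have hev7 : ∀ᶠ T : ℝ in atTop, 1 ≤ T := eventually_ge_atTop 1
  obtain ⟨T₀, hT₀⟩ := eventually_atTop.mp
    (hev3.and (hev4.and (hev5.and (hev6.and hev7))))
  refine ⟨κ * ((1 - θ) / 4) * x₂ / C, T₀, ?_, ?_⟩
  · have : 0 < 1 - θ := by linarith
    positivity
  intro T hT
  obtain ⟨h3, h4, h5, h6, h7⟩ := hT₀ T hT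
  have hTp : 0 < T := by linarith
  set x : ℝ := T ^ x₂ with hx
  set z : ℝ := T ^ x₁ with hz
  have hxp : 0 < x := Real.rpow_pos_of_pos hTp _
  have hzp : 0 < z := Real.rpow_pos_of_pos hTp _
  have hlx : Real.log x = x₂ * Real.log T := Real.log_rpow hTp _
  have hlz : Real.log z = θ * Real.log x := by
    rw [hlx, hz, Real.log_rpow hTp, hx₁θ]
    ring
  have hz1 : 1 ≤ z := Real.one_le_rpow h7 hx₁.le
  have hx1 : 1 ≤ x := Real.one_le_rpow h7 hx₂.le
  have hxz : y₁ * z ≤ x := by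
    have : x = T ^ (x₂ - x₁) * z := by
      rw [hx, hz, ← Real.rpow_add hTp]
      congr 1
      ring
    rw [this]
    exact mul_le_mul_of_nonneg_right h4 hzp.le
  have hzx : z ≤ x := by nlinarith
  have hlogx0 : 0 ≤ Real.log x := Real.log_nonneg hx1
  -- lower bound for S
  set w : ℝ := x ^ (1 - e) with hw
  have hwp : 0 < w := Real.rpow_pos_of_pos hxp _
  have hw1 : 1 ≤ w := Real.one_le_rpow hx1 (by linarith)
  have hwx : w ≤ x := by
    calc w ≤ x ^ (1 : ℝ) := Real.rpow_le_rpow_of_exponent_le hx1 (by linarith)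
      _ = x := Real.rpow_one x
  have hlw : Real.log w = (1 - e) * Real.log x := Real.log_rpow hxp _
  have hCw : C * w ≤ κ * e * x := by
    have hxe : x ^ e = T ^ (x₂ * e) := by
      rw [hx, ← Real.rpow_mul hTp.le]
    have hx' : x = w * x ^ e := by
      rw [hw, ← Real.rpow_add hxp]
      have : 1 - e + e = 1 := by ring
      rw [this, Real.rpow_one]
    have hke : 0 < κ * e := mul_pos hκ he0
    rw [← hxe, div_le_iff₀ hke] at h6
    calc C * w ≤ (x ^ e * (κ * e)) * w := mul_le_mul_of_nonneg_right h6 hwp.le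
      _ = κ * e * (w * x ^ e) := by ring
      _ = κ * e * x := by rw [← hx']
  have hSlow : (1 - e) * Real.log x * (κ * (1 - 2 * e) * x) ≤
      ∑ n ∈ Finset.Icc 1 ⌊x⌋₊, a n * Real.log n := by
    have hsplit : AS a x - AS a w ≤ ∑ n ∈ (Finset.Icc 1 ⌊x⌋₊).filter (fun n => ⌊w⌋₊ < n), a n := by
      have h1 : AS a x = ∑ n ∈ (Finset.Icc 1 ⌊x⌋₊).filter (fun n => ⌊w⌋₊ < n), a n +
          ∑ n ∈ (Finset.Icc 1 ⌊x⌋₊).filter (fun n => ¬ ⌊w⌋₊ < n), a n :=
        (Finset.sum_filter_add_sum_filter_not _ _ _).symm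
      have h2 : ∑ n ∈ (Finset.Icc 1 ⌊x⌋₊).filter (fun n => ¬ ⌊w⌋₊ < n), a n ≤ AS a w := by
        apply Finset.sum_le_sum_of_subset_of_nonneg
        · intro n hn
          rw [Finset.mem_filter, Finset.mem_Icc] at hn
          rw [Finset.mem_Icc]
          exact ⟨hn.1.1, not_lt.mp hn.2⟩
        · intro n _ _
          exact ha n
      linarith
    have h1 : (1 - e) * Real.log x * (AS a x - AS a w) ≤
        ∑ n ∈ (Finset.Icc 1 ⌊x⌋₊).filter (fun n => ⌊w⌋₊ < n), a n * Real.log n := by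
      calc (1 - e) * Real.log x * (AS a x - AS a w)
          ≤ (1 - e) * Real.log x *
            ∑ n ∈ (Finset.Icc 1 ⌊x⌋₊).filter (fun n => ⌊w⌋₊ < n), a n := by
            apply mul_le_mul_of_nonneg_left hsplit
            apply mul_nonneg (by linarith) hlogx0
        _ = ∑ n ∈ (Finset.Icc 1 ⌊x⌋₊).filter (fun n => ⌊w⌋₊ < n), a n * Real.log w := by
            rw [Finset.mul_sum, hlw]
            apply Finset.sum_congr rfl
            intro n _
            ring
        _ ≤ _ := by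
            apply Finset.sum_le_sum
            intro n hn
            rw [Finset.mem_filter] at hn
            apply mul_le_mul_of_nonneg_left _ (ha n)
            apply Real.log_le_log hwp
            exact ((Nat.floor_lt hwp.le).mp hn.2).le
    have h2 : ∑ n ∈ (Finset.Icc 1 ⌊x⌋₊).filter (fun n => ⌊w⌋₊ < n), a n * Real.log n ≤
        ∑ n ∈ Finset.Icc 1 ⌊x⌋₊, a n * Real.log n := by
      apply Finset.sum_le_sum_of_subset_of_nonneg (Finset.filter_subset _ _)
      intro n hn _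
      apply mul_nonneg (ha n)
      apply Real.log_natCast_nonneg
    have h3' : κ * (1 - 2 * e) * x ≤ AS a x - AS a w := by
      have ha1 := hlow x h5
      have ha2 := hAC w hw1
      nlinarith
    have h4' : (1 - e) * Real.log x * (κ * (1 - 2 * e) * x) ≤
        (1 - e) * Real.log x * (AS a x - AS a w) := by
      apply mul_le_mul_of_nonneg_left h3'
      apply mul_nonneg (by linarith) hlogx0
    linarith
  -- the split of S
  set D : ℝ := ∑ m ∈ Finset.Ioc ⌊z⌋₊ ⌊x⌋₊, L m / m with hD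
  have hfl : ⌊z⌋₊ ≤ ⌊x⌋₊ := Nat.floor_le_floor hzx
  have hsplit2 : ∑ m ∈ Finset.Icc 1 ⌊x⌋₊, L m * AS a (x / m) =
      ∑ m ∈ Finset.Icc 1 ⌊z⌋₊, L m * AS a (x / m) +
        ∑ m ∈ Finset.Ioc ⌊z⌋₊ ⌊x⌋₊, L m * AS a (x / m) := by
    rw [← Finset.sum_union]
    · apply Finset.sum_congr _ (fun _ _ => rfl)
      ext m
      simp only [Finset.mem_Icc, Finset.mem_union, Finset.mem_Ioc]
      omega
    · rw [Finset.disjoint_left]
      intro m hm hm'
      rw [Finset.mem_Icc] at hm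
      rw [Finset.mem_Ioc] at hm'
      omega
  have hfirst : ∑ m ∈ Finset.Icc 1 ⌊z⌋₊, L m * AS a (x / m) ≤
      κ * (1 + e) * x * ∑ m ∈ Finset.Icc 1 ⌊z⌋₊, L m / m := by
    rw [Finset.mul_sum]
    apply Finset.sum_le_sum
    intro m hm
    obtain ⟨hm1, hm2⟩ := Finset.mem_Icc.mp hm
    have hm2' : (m : ℝ) ≤ z := (Nat.le_floor_iff hzp.le).mp hm2
    have hmp : (0 : ℝ) < m := by exact_mod_cast hm1
    have hxm : y₁ ≤ x / m := by
      rw [le_div_iff₀ hmp]
      nlinarith
    calc L m * AS a (x / m) ≤ L m * (κ * (1 + e) * (x / m)) :=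
          mul_le_mul_of_nonneg_left (hupp _ hxm) (hL m)
      _ = κ * (1 + e) * x * (L m / m) := by ring
  have hsecond : ∑ m ∈ Finset.Ioc ⌊z⌋₊ ⌊x⌋₊, L m * AS a (x / m) ≤ C * x * D := by
    rw [hD, Finset.mul_sum]
    apply Finset.sum_le_sum
    intro m hm
    obtain ⟨hm1, hm2⟩ := Finset.mem_Ioc.mp hm
    have hm2' : (m : ℝ) ≤ x := (Nat.le_floor_iff hxp.le).mp hm2
    have hm0 : 0 < m := lt_of_le_of_lt (Nat.zero_le _) hm1
    have hmp : (0 : ℝ) < m := by exact_mod_cast hm0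
    have hxm : 1 ≤ x / m := by
      rw [le_div_iff₀ hmp]
      linarith
    calc L m * AS a (x / m) ≤ L m * (C * (x / m)) :=
          mul_le_mul_of_nonneg_left (hAC _ hxm) (hL m)
      _ = C * x * (L m / m) := by ring
  have hMz := hM z hz1
  rw [hlz] at hMz
  set Mz : ℝ := ∑ m ∈ Finset.Icc 1 ⌊z⌋₊, L m / m with hMzdef
  have hMz0 : 0 ≤ Mz := Finset.sum_nonneg fun m _ => div_nonneg (hL m) (Nat.cast_nonneg m)
  have hly1 : 0 ≤ Real.log y₁ := Real.log_nonneg hy₁1
  have hMz' : (1 + e) * Mz ≤ (1 + 8 * e) * (θ * Real.log x + Real.log y₁) := by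
    have hq : 0 ≤ θ * Real.log x + Real.log y₁ := by positivity
    have h1 : (1 - e) * ((1 + e) * Mz) ≤ (1 + e) * ((1 + e) * (θ * Real.log x + Real.log y₁)) := by
      nlinarith
    have h2 : (1 + e) * (1 + e) ≤ (1 - e) * (1 + 8 * e) := by nlinarith
    have h3 : (1 - e) * ((1 + e) * Mz) ≤
        (1 - e) * ((1 + 8 * e) * (θ * Real.log x + Real.log y₁)) := by
      nlinarith [mul_le_mul_of_nonneg_right h2 hq]
    exact le_of_mul_le_mul_left h3 (by linarith)
  have htot : (1 - e) * Real.log x * (κ * (1 - 2 * e) * x) ≤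
      κ * x * ((1 + 8 * e) * (θ * Real.log x + Real.log y₁)) + C * x * D := by
    have h1 := hSlow
    rw [hS, hsplit2] at h1
    have h2 : κ * (1 + e) * x * Mz ≤ κ * x * ((1 + 8 * e) * (θ * Real.log x + Real.log y₁)) := by
      have := mul_le_mul_of_nonneg_left hMz' (mul_pos hκ hxp).le
      calc κ * (1 + e) * x * Mz = κ * x * ((1 + e) * Mz) := by ring
        _ ≤ _ := this
    linarith
  have htot2 : κ * ((1 - e) * (1 - 2 * e) * Real.log x -
      (1 + 8 * e) * (θ * Real.log x + Real.log y₁)) ≤ C * D := by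
    have h1 : x * (κ * ((1 - e) * (1 - 2 * e) * Real.log x -
      (1 + 8 * e) * (θ * Real.log x + Real.log y₁))) ≤ x * (C * D) := by nlinarith
    exact le_of_mul_le_mul_left h1 hxp
  have h1θ : 0 < 1 - θ := by linarith
  rw [div_le_iff₀ h1θ, ← hlx] at h3
  have hfin : (1 - θ) / 4 * Real.log x ≤ (1 - e) * (1 - 2 * e) * Real.log x -
      (1 + 8 * e) * (θ * Real.log x + Real.log y₁) := by
    have hcoef : (1 - θ) / 2 ≤ (1 - e) * (1 - 2 * e) - (1 + 8 * e) * θ := by nlinarith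
    have h2 := mul_le_mul_of_nonneg_right hcoef hlogx0
    nlinarith
  have hfin2 : κ * ((1 - θ) / 4 * Real.log x) ≤ C * D :=
    le_trans (mul_le_mul_of_nonneg_left hfin hκ.le) htot2
  have : κ * ((1 - θ) / 4) * x₂ / C * Real.log T = κ * ((1 - θ) / 4 * Real.log x) / C := by
    rw [hlx]
    ring
  rw [this, div_le_iff₀ hCpos]
  linarith

end Pool.Agent.H80.DP
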